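import Pool.Agent.helper88.RQ2.Spec

open Set Matroid RadonMin

namespace RadonQ2

theorem AR2_strict (m : ℕ) (hm : 4 ≤ m) : (m.choose 2 : ℤ) < hh (m + 2) := by
  rw [hh_cast, show m + 2 - 1 = m + 1 by omega, choose_three_succ]
  suffices (corr (m + 1) : ℤ) < m.choose 3 by linarith
  rcases Nat.lt_or_ge m 6 with h | h
  · interval_cases m <;> decide
  · unfold corr
    rw [if_neg (by omega)]
    have h1 := six_mul_choose_three m
    have h2 : ((m + 1 - 3 + 0 : ℕ) : ℤ) = (m : ℤ) - 2 := by
      rw [show m + 1 - 3 + 0 = m - 2 by omega, Nat.cast_sub (show 2 ≤ m by omega)]; rfl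
    rw [h2]
    have h3 : (6 : ℤ) ≤ m := by exact_mod_cast h
    have h4 : (7 : ℤ) ≤ (m : ℤ) * (m - 1) := by nlinarith
    have h5 := mul_le_mul_of_nonneg_right h4 (show (0 : ℤ) ≤ (m : ℤ) - 2 by linarith)
    linarith

theorem AR2_proof : AR2_stmt := by
  intro m n hm hn h
  have h2 := choose_two_mul m
  rcases Nat.lt_or_ge m 4 with hm4 | hm4
  · have hm3 : m = 3 := by omega
    subst hm3
    refine ⟨rfl, ?_⟩
    have e2 : ((3 : ℕ).choose 2 : ℤ) = 3 := by decide
    have e3 : ((3 + 1 : ℕ).choose 3 : ℤ) = 4 := by decide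
    rw [e2, e3] at h
    have h1 := hh_tangent 4 n (by norm_num) hn
    have e4 : ((4 : ℕ).choose 2 : ℤ) = 6 := by decide
    have e5 : (hh (4 + 2) : ℤ) = 7 := by decide
    rw [e4, e5] at h1
    push_cast at h1
    have hn5 : (n : ℤ) ≤ 5 := by
      have : 3 * (n : ℤ) ≤ 17 := by linarith
      omega
    have hn5' : n ≤ 5 := by exact_mod_cast hn5
    interval_cases n
    · revert h; decide
    · revert h; decide
    · rfl
  · exfalso
    have h1 := hh_tangent m n (by omega) hn
    have h3 := AR2_strict m hm4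
    nlinarith

end RadonQ2
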